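import Mathlib

set_option autoImplicit false

/-!
Functions on `F_2^n` with values in a field of characteristic 2: degree, the
Croot-Lev-Pach splitting of `p (x + y)`, and matrices supported in corner-free sets.
-/

namespace Pool.Agent.TH835.Cor

open Finset

/-- `F_2^n` -/
abbrev V (n : ℕ) := Fin n → ZMod 2

variable {n : ℕ} {K : Type} [Field K]

/-- support of a vector -/
def sp (x : V n) : Finset (Fin n) := univ.filter fun i => x i = 1

/-- vector with a given support -/
def vec (S : Finset (Fin n)) : V n := fun i => if i ∈ S then 1 else 0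

lemma zmod2 : ∀ a : ZMod 2, a = 0 ∨ a = 1 := by decide

lemma sp_vec (S : Finset (Fin n)) : sp (vec S) = S := by
  ext i; simp [sp, vec]

lemma vec_sp (x : V n) : vec (sp x) = x := by
  ext i
  rcases zmod2 (x i) with h | h <;> simp [sp, vec, h]

lemma sp_inj {x y : V n} (h : sp x = sp y) : x = y := by
  rw [← vec_sp x, ← vec_sp y, h]

variable (K) in
/-- the monomial `∏ i ∈ S, x i` -/
def mon (S : Finset (Fin n)) (x : V n) : K := if S ⊆ sp x then 1 else 0

/-- the coefficient of the monomial `S` -/
def cf (g : V n → K) (S : Finset (Fin n)) : K := ∑ x ∈ univ.filter (fun x : V n => sp x ⊆ S), g x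

lemma expand [CharP K 2] (g : V n → K) (x : V n) : g x = ∑ S, cf g S * mon K S x := by
  classical
  have h1 : ∑ S, cf g S * mon K S x =
      ∑ y : V n, g y * ((univ.filter (fun S : Finset (Fin n) => sp y ⊆ S ∧ S ⊆ sp x)).card : K) := by
    have : ∀ S : Finset (Fin n), cf g S * mon K S x =
        ∑ y : V n, if sp y ⊆ S ∧ S ⊆ sp x then g y else 0 := by
      intro S
      rw [cf, mon, Finset.sum_filter]
      by_cases hS : S ⊆ sp x
      · simp [hS]
      · simp [hS]
    rw [Finset.sum_congr rfl fun S _ => this S, Finset.sum_comm]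
    refine Finset.sum_congr rfl fun y _ => ?_
    rw [← Finset.sum_filter, Finset.sum_const, nsmul_eq_mul, mul_comm]
  rw [h1, Finset.sum_eq_single x]
  · have : univ.filter (fun S : Finset (Fin n) => sp x ⊆ S ∧ S ⊆ sp x) = {sp x} := by
      ext S
      simp only [mem_filter, mem_univ, true_and, mem_singleton]
      constructor
      · rintro ⟨h1, h2⟩; exact Finset.Subset.antisymm h2 h1
      · rintro rfl; exact ⟨subset_rfl, subset_rfl⟩
    rw [this]; simp
  · intro y _ hyx
    by_cases hs : sp y ⊆ sp x
    · have e : univ.filter (fun S : Finset (Fin n) => sp y ⊆ S ∧ S ⊆ sp x) = Finset.Icc (sp y) (sp x) := by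
        ext S; simp
      rw [e, Finset.card_Icc_finset hs]
      have hlt : (sp y).card < (sp x).card := by
        apply Finset.card_lt_card
        rw [Finset.ssubset_iff_subset_ne]
        exact ⟨hs, fun h => hyx (sp_inj h)⟩
      obtain ⟨k, hk⟩ : ∃ k, (sp x).card - (sp y).card = k + 1 := ⟨(sp x).card - (sp y).card - 1, by omega⟩
      rw [hk, pow_succ]
      push_cast
      have : (2 : K) = 0 := by
        have := CharP.cast_eq_zero K 2
        exact_mod_cast this
      rw [this]; simp
    · have e : univ.filter (fun S : Finset (Fin n) => sp y ⊆ S ∧ S ⊆ sp x) = ∅ := by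
        ext S
        simp only [mem_filter, mem_univ, true_and, Finset.notMem_empty, iff_false, not_and]
        intro h1 h2; exact hs (h1.trans h2)
      rw [e]; simp
  · intro h; exact absurd (mem_univ _) h

lemma mon_prod (S : Finset (Fin n)) (x : V n) :
    mon K S x = ∏ i ∈ S, (if x i = 1 then (1 : K) else 0) := by
  classical
  rw [mon]
  by_cases h : S ⊆ sp x
  · rw [if_pos h, Finset.prod_eq_one]
    intro i hi
    have := h hi
    simp only [sp, mem_filter, mem_univ, true_and] at this
    rw [if_pos this]
  · rw [if_neg h]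
    obtain ⟨i, hi, hn⟩ := Finset.not_subset.1 h
    symm
    apply Finset.prod_eq_zero hi
    rw [if_neg]
    intro h1
    exact hn (by simp [sp, h1])

/-- the product formula for a monomial of a sum -/
lemma mon_add [CharP K 2] (S : Finset (Fin n)) (x y : V n) :
    mon K S (x + y) = ∑ P ∈ S.powerset, mon K P x * mon K (S \ P) y := by
  classical
  have h2 : (1 : K) + 1 = 0 := by
    have := CharP.cast_eq_zero K 2
    push_cast at this
    rw [one_add_one_eq_two]; exact this
  rw [mon_prod]
  have h : ∀ i ∈ S, (if (x + y) i = 1 then (1 : K) else 0) =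
      (if x i = 1 then (1 : K) else 0) + (if y i = 1 then (1 : K) else 0) := by
    intro i _
    rw [Pi.add_apply]
    have h11 : (1 : ZMod 2) + 1 ≠ 1 := by decide
    rcases zmod2 (x i) with h | h <;> rcases zmod2 (y i) with h' | h' <;> simp [h, h', h11, h2]
  rw [Finset.prod_congr rfl h, Finset.prod_add]
  refine Finset.sum_congr rfl fun P _ => ?_
  rw [mon_prod, mon_prod]

/-- Croot-Lev-Pach splitting. -/
lemma split [CharP K 2] (p : V n → K) (d : ℕ) (hp : ∀ S : Finset (Fin n), d < S.card → cf p S = 0) :
    ∃ a b : {S : Finset (Fin n) // S.card ≤ d / 2} → V n → K, ∀ x y : V n,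
      p (x + y) = ∑ P, mon K P.1 x * b P y + ∑ P, a P x * mon K P.1 y := by
  classical
  refine ⟨fun P x => ∑ S ∈ univ.filter (fun S : Finset (Fin n) => P.1 ⊆ S ∧ d / 2 < (S \ P.1).card),
      cf p S * mon K (S \ P.1) x,
    fun P y => ∑ S ∈ univ.filter (fun S : Finset (Fin n) => P.1 ⊆ S), cf p S * mon K (S \ P.1) y, ?_⟩
  intro x y
  rw [expand p (x + y)]
  simp only [mon_add]
  -- the sum over pairs
  have hL : ∑ S, cf p S * ∑ P ∈ S.powerset, mon K P x * mon K (S \ P) y =
      ∑ S : Finset (Fin n), ∑ P : Finset (Fin n),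
        if P ⊆ S then cf p S * (mon K P x * mon K (S \ P) y) else 0 := by
    refine Finset.sum_congr rfl fun S _ => ?_
    rw [Finset.mul_sum, ← Finset.sum_filter]
    refine Finset.sum_congr ?_ fun _ _ => rfl
    ext P; simp
  rw [hL, Finset.sum_comm]
  -- split according to the size of P
  have hA : ∀ P : Finset (Fin n), (∑ S : Finset (Fin n),
        if P ⊆ S then cf p S * (mon K P x * mon K (S \ P) y) else 0) =
      (if P.card ≤ d / 2 then mon K P x * ∑ S ∈ univ.filter (fun S : Finset (Fin n) => P ⊆ S),
        cf p S * mon K (S \ P) y else 0) +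
      ∑ S : Finset (Fin n), if P ⊆ S ∧ d / 2 < P.card then
        cf p S * (mon K P x * mon K (S \ P) y) else 0 := by
    intro P
    by_cases hP : P.card ≤ d / 2
    · have hz : (∑ S : Finset (Fin n), if P ⊆ S ∧ d / 2 < P.card then
        cf p S * (mon K P x * mon K (S \ P) y) else 0) = 0 := by
        apply Finset.sum_eq_zero
        intro S _
        rw [if_neg]
        rintro ⟨_, h⟩; omega
      rw [hz, if_pos hP, add_zero, Finset.mul_sum, Finset.sum_filter]
      refine Finset.sum_congr rfl fun S _ => ?_
      split_ifs <;> ring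
    · rw [if_neg hP, zero_add]
      refine Finset.sum_congr rfl fun S _ => ?_
      by_cases h : P ⊆ S
      · rw [if_pos h, if_pos ⟨h, by omega⟩]
      · rw [if_neg h, if_neg (fun h' => h h'.1)]
  rw [Finset.sum_congr rfl fun P _ => hA P, Finset.sum_add_distrib]
  congr 1
  · rw [← Finset.sum_filter]
    exact Finset.sum_subtype (univ.filter (fun P : Finset (Fin n) => P.card ≤ d / 2))
      (fun P => by simp) (fun P => mon K P x * ∑ S ∈ univ.filter (fun S : Finset (Fin n) => P ⊆ S),
        cf p S * mon K (S \ P) y)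
  · -- reorganize by Q = S \ P
    have hR : ∑ P : {S : Finset (Fin n) // S.card ≤ d / 2}, (∑ S ∈ univ.filter
        (fun S : Finset (Fin n) => P.1 ⊆ S ∧ d / 2 < (S \ P.1).card),
        cf p S * mon K (S \ P.1) x) * mon K P.1 y =
        ∑ S : Finset (Fin n), ∑ Q : Finset (Fin n),
          if Q ⊆ S ∧ d / 2 < (S \ Q).card ∧ Q.card ≤ d / 2 then
            cf p S * (mon K (S \ Q) x * mon K Q y) else 0 := by
      rw [Finset.sum_comm]
      rw [← Finset.sum_subtype (univ.filter (fun P : Finset (Fin n) => P.card ≤ d / 2))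
        (fun P => by simp) (fun P => (∑ S ∈ univ.filter
        (fun S : Finset (Fin n) => P ⊆ S ∧ d / 2 < (S \ P).card),
        cf p S * mon K (S \ P) x) * mon K P y), Finset.sum_filter]
      refine Finset.sum_congr rfl fun Q _ => ?_
      by_cases hQ : Q.card ≤ d / 2
      · rw [if_pos hQ, Finset.sum_filter, Finset.sum_mul]
        refine Finset.sum_congr rfl fun S _ => ?_
        by_cases h : Q ⊆ S ∧ d / 2 < (S \ Q).card
        · rw [if_pos h, if_pos ⟨h.1, h.2, hQ⟩]; ring
        · rw [if_neg h, if_neg (fun h' => h ⟨h'.1, h'.2.1⟩), zero_mul]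
      · rw [if_neg hQ]
        symm
        apply Finset.sum_eq_zero
        intro S _
        rw [if_neg (fun h' => hQ h'.2.2)]
    rw [hR, Finset.sum_comm]
    refine Finset.sum_congr rfl fun S _ => ?_
    rw [← Finset.sum_filter, ← Finset.sum_filter]
    by_cases hS : d < S.card
    · rw [Finset.sum_eq_zero, Finset.sum_eq_zero]
      · intro Q _; rw [hp S hS, zero_mul]
      · intro Q _; rw [hp S hS, zero_mul]
    refine Finset.sum_nbij' (fun P => S \ P) (fun Q => S \ Q) ?_ ?_ ?_ ?_ ?_
    · intro P hP
      simp only [mem_filter, mem_univ, true_and] at hP ⊢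
      have h1 := Finset.card_sdiff_of_subset hP.1
      refine ⟨Finset.sdiff_subset, ?_, ?_⟩
      · rw [Finset.sdiff_sdiff_eq_self hP.1]; exact hP.2
      · omega
    · intro Q hQ
      simp only [mem_filter, mem_univ, true_and] at hQ ⊢
      exact ⟨Finset.sdiff_subset, hQ.2.1⟩
    · intro P hP
      simp only [mem_filter, mem_univ, true_and] at hP
      exact Finset.sdiff_sdiff_eq_self hP.1
    · intro Q hQ
      simp only [mem_filter, mem_univ, true_and] at hQ
      exact Finset.sdiff_sdiff_eq_self hQ.1
    · intro P hP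
      simp only [mem_filter, mem_univ, true_and] at hP
      simp only [Finset.sdiff_sdiff_eq_self hP.1]

end Pool.Agent.TH835.Cor
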