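import Pool.Agent.TH835.Cor.Main

set_option autoImplicit false

namespace Pool.Agent.TH835.Cor

open Finset

variable {n : ℕ}

lemma sp_add (x y : V n) : sp (x + y) = (sp x \ sp y) ∪ (sp y \ sp x) := by
  ext i
  simp only [sp, mem_filter, mem_univ, true_and, Pi.add_apply, mem_union, mem_sdiff]
  rcases zmod2 (x i) with h | h <;> rcases zmod2 (y i) with h' | h' <;> rw [h, h'] <;> decide

lemma card_three (x y : V n) :
    (sp x).card + (sp y).card + (sp (x + y)).card = 2 * (sp x ∪ sp y).card := by
  classical
  rw [sp_add, Finset.card_union_of_disjoint]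
  · have h1 := Finset.card_sdiff_add_card (sp x) (sp y)
    have h2 := Finset.card_sdiff_add_card (sp y) (sp x)
    rw [Finset.union_comm (sp y) (sp x)] at h2
    omega
  · rw [Finset.disjoint_left]
    intro i hi hj
    rw [mem_sdiff] at hi hj
    exact hi.2 hj.1

/-- pairs of vectors with no common zero -/
def full (x y : V n) : Prop := sp x ∪ sp y = univ

instance (x y : V n) : Decidable (full x y) := by unfold full; infer_instance

lemma full_iff (x y : V n) : full x y ↔ (sp x).card + (sp y).card + (sp (x + y)).card = 2 * n := by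
  rw [card_three, full]
  constructor
  · intro h; rw [h, Finset.card_univ, Fintype.card_fin]
  · intro h
    apply Finset.eq_univ_of_card
    rw [Fintype.card_fin]; omega

lemma card_full : (univ.filter fun p : V n × V n => full p.1 p.2).card = 3 ^ n := by
  classical
  have e : (univ.filter fun p : V n × V n => full p.1 p.2).card =
      Fintype.card (Fin n → {q : ZMod 2 × ZMod 2 // q ≠ 0}) := by
    rw [← Fintype.card_subtype]
    refine Fintype.card_congr
      { toFun := fun p i => ⟨(p.1.1 i, p.1.2 i), ?_⟩
        invFun := fun q => ⟨(fun i => (q i).1.1, fun i => (q i).1.2), ?_⟩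
        left_inv := fun p => rfl
        right_inv := fun q => rfl }
    · intro h0
      have h := p.2
      rw [full] at h
      have := Finset.eq_univ_iff_forall.1 h i
      rw [Prod.mk_eq_zero] at h0
      simp [sp, h0.1, h0.2] at this
    · show full _ _
      rw [full, Finset.eq_univ_iff_forall]
      intro i
      simp only [sp, mem_union, mem_filter, mem_univ, true_and]
      have h := (q i).2
      rcases zmod2 ((q i).1.1) with h1 | h1
      · rcases zmod2 ((q i).1.2) with h2 | h2
        · exact absurd (Prod.ext h1 h2) h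
        · right; exact h2
      · left; exact h1
  rw [e, Fintype.card_fun, Fintype.card_fin]
  congr 1

/-- the product sets given by three weights with sum `2 n` are corner-free -/
lemma weights_cornerFree (a b c : ℕ) (h : a + b + c = 2 * n) (x y z : V n)
    (h1 : (sp x).card = a ∧ (sp y).card = b ∧ (sp (x + y)).card = c)
    (h2 : (sp x).card = a ∧ (sp (y + z)).card = b ∧ (sp (x + (y + z))).card = c)
    (h3 : (sp (x + z)).card = a ∧ (sp y).card = b ∧ (sp (x + z + y)).card = c) : z = 0 := by
  have f2 : full x (y + z) := (full_iff _ _).2 (by rw [h2.1, h2.2.1, h2.2.2, h])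
  have f1 : full x y := (full_iff _ _).2 (by rw [h1.1, h1.2.1, h1.2.2, h])
  have f3 : full (x + z) y := (full_iff _ _).2 (by rw [h3.1, h3.2.1, h3.2.2, h])
  rw [full, Finset.eq_univ_iff_forall] at f1 f2 f3
  -- `z` is contained in `x`
  have hzx : ∀ i, z i = 1 → x i = 1 := by
    intro i hz
    have g1 := f1 i
    have g2 := f2 i
    simp only [sp, mem_union, mem_filter, mem_univ, true_and, Pi.add_apply] at g1 g2
    rcases zmod2 (x i) with hx | hx
    · exfalso
      rcases zmod2 (y i) with hy | hy
      · rw [hx, hy] at g1; exact absurd g1 (by decide)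
      · rw [hx, hy, hz] at g2; exact absurd g2 (by decide)
    · exact hx
  have hsub : sp (x + z) ⊆ sp x := by
    intro i hi
    simp only [sp, mem_filter, mem_univ, true_and, Pi.add_apply] at hi ⊢
    rcases zmod2 (z i) with hz | hz
    · rwa [hz, add_zero] at hi
    · exact hzx i hz
  have heq : sp (x + z) = sp x := Finset.eq_of_subset_of_card_le hsub (by rw [h3.1, h1.1])
  have := sp_inj heq
  simpa using this

/-- large corner-free product sets -/
theorem large (n : ℕ) : ∃ a b c : ℕ, a + b + c = 2 * n ∧
    3 ^ n ≤ (n + 1) ^ 2 * (univ.filter fun p : V n × V n =>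
      (sp p.1).card = a ∧ (sp p.2).card = b ∧ (sp (p.1 + p.2)).card = c).card := by
  classical
  let U := univ.filter fun p : V n × V n => full p.1 p.2
  let T := range (n + 1) ×ˢ range (n + 1)
  have hT : T.Nonempty := ⟨(0, 0), by simp [T]⟩
  have hmaps : ∀ p ∈ U, ((sp p.1).card, (sp p.2).card) ∈ T := by
    intro p _
    have h1 := Finset.card_le_univ (sp p.1)
    have h2 := Finset.card_le_univ (sp p.2)
    rw [Fintype.card_fin] at h1 h2
    simp only [T, mem_product, mem_range]
    omega
  have hsum := Finset.card_eq_sum_card_fiberwise (s := U) (t := T)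
    (f := fun p : V n × V n => ((sp p.1).card, (sp p.2).card))
    (fun p hp => Finset.mem_coe.2 (hmaps p (Finset.mem_coe.1 hp)))
  obtain ⟨q, hq, hmax⟩ := Finset.exists_max_image T
    (fun q => (U.filter fun p => ((sp p.1).card, (sp p.2).card) = q).card) hT
  have hle : U.card ≤ (n + 1) ^ 2 * (U.filter fun p => ((sp p.1).card, (sp p.2).card) = q).card := by
    rw [hsum]
    calc ∑ b ∈ T, (U.filter fun p => ((sp p.1).card, (sp p.2).card) = b).card
        ≤ ∑ _b ∈ T, (U.filter fun p => ((sp p.1).card, (sp p.2).card) = q).card :=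
          Finset.sum_le_sum fun b hb => hmax b hb
      _ = _ := by
          rw [Finset.sum_const, smul_eq_mul, Finset.card_product, Finset.card_range]; ring
  have hU : U.card = 3 ^ n := card_full
  rw [hU] at hle
  have hpos : 0 < (U.filter fun p => ((sp p.1).card, (sp p.2).card) = q).card := by
    by_contra h0
    have : (U.filter fun p => ((sp p.1).card, (sp p.2).card) = q).card = 0 := by omega
    rw [this, mul_zero] at hle
    have : 0 < 3 ^ n := by positivity
    omega
  obtain ⟨p0, hp0⟩ := Finset.card_pos.1 hpos
  rw [mem_filter] at hp0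
  have hp0' := (full_iff _ _).1 (mem_filter.1 hp0.1).2
  have e1 : (sp p0.1).card = q.1 := by rw [← hp0.2]
  have e2 : (sp p0.2).card = q.2 := by rw [← hp0.2]
  refine ⟨q.1, q.2, (sp (p0.1 + p0.2)).card, by rw [← e1, ← e2]; exact hp0', ?_⟩
  refine hle.trans (Nat.mul_le_mul_left _ (Finset.card_le_card ?_))
  intro p hp
  rw [mem_filter] at hp
  have hf := (full_iff _ _).1 (mem_filter.1 hp.1).2
  have e3 : (sp p.1).card = q.1 := by rw [← hp.2]
  have e4 : (sp p.2).card = q.2 := by rw [← hp.2]
  rw [mem_filter]
  refine ⟨mem_univ _, e3, e4, ?_⟩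
  omega

end Pool.Agent.TH835.Cor
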