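import Pool.Agent.TH835.Cor.Basic

set_option autoImplicit false

namespace Pool.Agent.TH835.Cor

open Finset

variable {n : ℕ} {K : Type} [Field K]

/-- `A` contains no nontrivial corner `(x, y), (x, y + z), (x + z, y)`, `z ≠ 0`. -/
def CornerFree (A : Finset (V n × V n)) : Prop :=
  ∀ x y z : V n, z ≠ 0 → ¬ ((x, y) ∈ A ∧ (x, y + z) ∈ A ∧ (x + z, y) ∈ A)

lemma add_self (x : V n) : x + x = 0 := by
  ext i
  have : ∀ a : ZMod 2, a + a = 0 := by decide
  exact this _

/-- a matrix of rank at most `|I|` supported in a corner-free set has at most `2^n |I|` nonzero entries -/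
lemma matrix_bound {I : Type} [Fintype I] (A : Finset (V n × V n)) (hA : CornerFree A)
    (a b : I → V n → K) (h : ∀ x y, ∑ k, a k x * b k y ≠ 0 → (x, y) ∈ A) :
    Nat.card {p : V n × V n // ∑ k, a k p.1 * b k p.2 ≠ 0} ≤ 2 ^ n * Fintype.card I := by
  classical
  -- the diagonal classes
  have hs : ∀ s : V n, (univ.filter fun x : V n => ∑ k, a k x * b k (x + s) ≠ 0).card ≤
      Fintype.card I := by
    intro s
    set X := univ.filter fun x : V n => ∑ k, a k x * b k (x + s) ≠ 0 with hX
    have hli : LinearIndependent K (fun x : X => (fun k => a k x.1 : I → K)) := by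
      rw [Fintype.linearIndependent_iff]
      intro c hc x'
      have h1 : ∑ x : X, c x * ∑ k, a k x.1 * b k (x'.1 + s) = 0 := by
        have h2 : ∀ k, ∑ x : X, c x * a k x.1 = 0 := by
          intro k
          have := congrFun hc k
          simpa [Finset.sum_apply] using this
        calc ∑ x : X, c x * ∑ k, a k x.1 * b k (x'.1 + s)
            = ∑ k, (∑ x : X, c x * a k x.1) * b k (x'.1 + s) := by
              simp only [Finset.mul_sum, Finset.sum_mul]
              rw [Finset.sum_comm]
              refine Finset.sum_congr rfl fun k _ => Finset.sum_congr rfl fun x _ => ?_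
              ring
          _ = 0 := by
              apply Finset.sum_eq_zero; intro k _; rw [h2 k, zero_mul]
      rw [Finset.sum_eq_single x'] at h1
      · have hx' := mem_filter.1 x'.2
        exact (mul_eq_zero.1 h1).resolve_right hx'.2
      · intro x _ hxx
        have hx := mem_filter.1 x.2
        have hx' := mem_filter.1 x'.2
        have hne : x.1 + x'.1 ≠ 0 := by
          intro h0
          apply hxx
          apply Subtype.ext
          have : x.1 + x'.1 + x'.1 = x'.1 := by rw [h0, zero_add]
          rwa [add_assoc, add_self, add_zero] at this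
        have hno : ∑ k, a k x.1 * b k (x'.1 + s) = 0 := by
          by_contra hne'
          apply hA x.1 (x'.1 + s) (x.1 + x'.1) hne
          refine ⟨h _ _ hne', ?_, ?_⟩
          · have e : x'.1 + s + (x.1 + x'.1) = x.1 + s := by
              calc x'.1 + s + (x.1 + x'.1) = x.1 + s + (x'.1 + x'.1) := by abel
                _ = x.1 + s := by rw [add_self, add_zero]
            rw [e]; exact h _ _ hx.2
          · have e : x.1 + (x.1 + x'.1) = x'.1 := by rw [← add_assoc, add_self, zero_add]
            rw [e]; exact h _ _ hx'.2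
        rw [hno, mul_zero]
      · intro h; exact absurd (mem_univ _) h
    have := hli.fintype_card_le_finrank
    rwa [Fintype.card_coe, Module.finrank_fintype_fun_eq_card] at this
  have hcard : Nat.card {p : V n × V n // ∑ k, a k p.1 * b k p.2 ≠ 0} =
      ∑ s : V n, (univ.filter fun x : V n => ∑ k, a k x * b k (x + s) ≠ 0).card := by
    rw [Nat.card_eq_fintype_card, Fintype.card_subtype]
    rw [Finset.card_eq_sum_card_fiberwise (f := fun p : V n × V n => p.1 + p.2) (t := univ)
      (fun _ _ => Finset.mem_coe.2 (mem_univ _))]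
    refine Finset.sum_congr rfl fun s _ => ?_
    refine Finset.card_bij' (fun p _ => p.1) (fun x _ => (x, x + s)) ?_ ?_ ?_ ?_
    · intro p hp
      simp only [mem_filter, mem_univ, true_and] at hp ⊢
      have : p.1 + s = p.2 := by rw [← hp.2, ← add_assoc, add_self, zero_add]
      rw [this]; exact hp.1
    · intro x hx
      simp only [mem_filter, mem_univ, true_and] at hx ⊢
      exact ⟨hx, by rw [← add_assoc, add_self, zero_add]⟩
    · intro p hp
      simp only [mem_filter, mem_univ, true_and] at hp
      have : p.1 + s = p.2 := by rw [← hp.2, ← add_assoc, add_self, zero_add]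
      ext1
      · rfl
      · exact this
    · intro x hx; rfl
  rw [hcard]
  calc ∑ s : V n, (univ.filter fun x : V n => ∑ k, a k x * b k (x + s) ≠ 0).card
      ≤ ∑ _s : V n, Fintype.card I := Finset.sum_le_sum fun s _ => hs s
    _ = 2 ^ n * Fintype.card I := by
      rw [Finset.sum_const, Finset.card_univ, Fintype.card_fun, ZMod.card, Fintype.card_fin,
        smul_eq_mul]

/-- In a space of functions on `X` cut out by few linear conditions there is a function with few
zeros. -/
lemma few_zeros {X J : Type} [Fintype X] [Fintype J] (L : (X → K) →ₗ[K] (J → K)) :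
    ∃ g : X → K, L g = 0 ∧ Nat.card {x // g x = 0} ≤ Fintype.card J := by
  classical
  -- choose `g` in the kernel with the largest support
  let P : ℕ → Prop := fun k => ∃ g : X → K, L g = 0 ∧ (univ.filter fun x => g x ≠ 0).card = k
  have hb : ∀ k, P k → k ≤ Fintype.card X := by
    rintro k ⟨g, _, rfl⟩
    exact (Finset.card_le_univ _)
  have h0 : P 0 := ⟨0, map_zero L, by simp⟩
  have hk := Nat.findGreatest_spec (P := P) (m := 0) (Nat.zero_le (Fintype.card X)) h0
  obtain ⟨g, hg, hgk⟩ := hk
  refine ⟨g, hg, ?_⟩
  by_contra hlt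
  push Not at hlt
  set Z := univ.filter fun x => g x ≠ 0 with hZ
  -- restrict to the support
  let R : (X → K) →ₗ[K] (Z → K) := LinearMap.funLeft K K (fun z : Z => z.1)
  have hcardZ : Z.card + Nat.card {x // g x = 0} = Fintype.card X := by
    rw [Nat.card_eq_fintype_card, Fintype.card_subtype, hZ, add_comm]
    exact Finset.card_filter_add_card_filter_not (fun x => g x = 0)
  have hker : LinearMap.ker (L.prod R) ≠ ⊥ := by
    apply LinearMap.ker_ne_bot_of_finrank_lt
    rw [Module.finrank_prod, Module.finrank_fintype_fun_eq_card, Module.finrank_fintype_fun_eq_card,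
      Module.finrank_fintype_fun_eq_card, Fintype.card_coe]
    omega
  obtain ⟨h, hh, hne⟩ := Submodule.exists_mem_ne_zero_of_ne_bot hker
  rw [LinearMap.mem_ker, LinearMap.prod_apply] at hh
  replace hh := Prod.mk_eq_zero.1 hh
  have hz : ∀ x, g x ≠ 0 → h x = 0 := by
    intro x hx
    have := congrFun hh.2 ⟨x, by rw [hZ]; simp [hx]⟩
    simpa [R, LinearMap.funLeft] using this
  obtain ⟨x0, hx0⟩ := Function.ne_iff.1 hne
  have hbig : P (univ.filter fun x => (g + h) x ≠ 0).card := ⟨g + h, by rw [map_add, hg, hh.1, add_zero], rfl⟩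
  have h1 : (univ.filter fun x => (g + h) x ≠ 0).card ≤ Nat.findGreatest P (Fintype.card X) :=
    Nat.le_findGreatest (hb _ hbig) hbig
  rw [← hgk] at h1
  have h2 : Z ⊂ univ.filter fun x => (g + h) x ≠ 0 := by
    rw [Finset.ssubset_iff_of_subset]
    · refine ⟨x0, ?_, ?_⟩
      · have hgx : g x0 = 0 := by
          by_contra hc
          exact hx0 (hz x0 hc)
        simp only [mem_filter, mem_univ, true_and, Pi.add_apply, hgx, zero_add]
        exact hx0
      · rw [hZ]
        simp only [mem_filter, mem_univ, true_and, not_not]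
        by_contra hc
        exact hx0 (hz x0 hc)
    · intro x hx
      rw [hZ, mem_filter] at hx
      simp only [mem_filter, mem_univ, true_and, Pi.add_apply]
      rw [hz x hx.2, add_zero]; exact hx.2
  have := Finset.card_lt_card h2
  omega

/-- number of small sets -/
lemma small_sets (k : ℕ) (hk : 3 * k ≤ n) :
    ((univ.filter fun S : Finset (Fin n) => S.card ≤ k).card : ℝ) ^ 3 ≤ (27 / 4) ^ n := by
  classical
  have h1 : ((univ.filter fun S : Finset (Fin n) => S.card ≤ k).card : ℝ) * (1 / 2) ^ k ≤
      (3 / 2) ^ n := by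
    have e : ((3 : ℝ) / 2) ^ n = ∑ S : Finset (Fin n), (1 / 2 : ℝ) ^ S.card := by
      have := Finset.prod_add (fun _ : Fin n => (1 / 2 : ℝ)) (fun _ => 1) univ
      simp only [Finset.prod_const, Finset.card_univ, Fintype.card_fin, Finset.powerset_univ,
        one_pow, mul_one] at this
      rw [← this]; norm_num
    rw [e, ← nsmul_eq_mul, ← Finset.sum_const]
    calc ∑ _S ∈ univ.filter (fun S : Finset (Fin n) => S.card ≤ k), (1 / 2 : ℝ) ^ k
        ≤ ∑ S ∈ univ.filter (fun S : Finset (Fin n) => S.card ≤ k), (1 / 2 : ℝ) ^ S.card := by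
          refine Finset.sum_le_sum fun S hS => ?_
          rw [mem_filter] at hS
          exact pow_le_pow_of_le_one (by norm_num) (by norm_num) hS.2
      _ ≤ ∑ S : Finset (Fin n), (1 / 2 : ℝ) ^ S.card := by
          refine Finset.sum_le_sum_of_subset_of_nonneg (Finset.subset_univ _) fun _ _ _ => by positivity
  have h2 : ((univ.filter fun S : Finset (Fin n) => S.card ≤ k).card : ℝ) ≤
      (3 / 2) ^ n * 2 ^ k := by
    have : ((univ.filter fun S : Finset (Fin n) => S.card ≤ k).card : ℝ) =
      ((univ.filter fun S : Finset (Fin n) => S.card ≤ k).card : ℝ) * (1 / 2) ^ k * 2 ^ k := by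
      rw [mul_assoc, ← mul_pow]; norm_num
    rw [this]
    exact mul_le_mul_of_nonneg_right h1 (by positivity)
  calc ((univ.filter fun S : Finset (Fin n) => S.card ≤ k).card : ℝ) ^ 3
      ≤ ((3 / 2) ^ n * 2 ^ k) ^ 3 := pow_le_pow_left₀ (by positivity) h2 3
    _ = (27 / 8) ^ n * 2 ^ (3 * k) := by
        rw [mul_pow, ← pow_mul, ← pow_mul, mul_comm n 3, mul_comm k 3, pow_mul]; norm_num
    _ ≤ (27 / 8) ^ n * 2 ^ n := by
        apply mul_le_mul_of_nonneg_left _ (by positivity)
        exact pow_le_pow_right₀ (by norm_num) hk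
    _ = (27 / 4) ^ n := by rw [← mul_pow]; norm_num

lemma large_sets (k d : ℕ) (hd : n ≤ k + d + 1) :
    (univ.filter fun S : Finset (Fin n) => d < S.card).card ≤
      (univ.filter fun S : Finset (Fin n) => S.card ≤ k).card := by
  classical
  refine Finset.card_le_card_of_injOn (fun S => Sᶜ) ?_ ?_
  · intro S hS
    rw [Finset.mem_coe, mem_filter] at hS
    rw [Finset.mem_coe, mem_filter]
    refine ⟨mem_univ _, ?_⟩
    rw [Finset.card_compl, Fintype.card_fin]
    omega
  · intro S _ T _ h
    exact compl_injective h

/-- The bound for one function of the form `∑ i, (∑ j, u i j x * v i j y) * w i (x + y)`. -/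
theorem rank_bound [CharP K 2] {S r : ℕ} (A : Finset (V n × V n)) (hA : CornerFree A)
    (u v : Fin S → Fin r → V n → K) (w : Fin S → V n → K)
    (h : ∀ x y, (x, y) ∈ A ↔ ∑ i, (∑ j, u i j x * v i j y) * w i (x + y) ≠ 0) (d : ℕ) :
    A.card ≤ S * 2 ^ n * ((univ.filter fun B : Finset (Fin n) => d < B.card).card +
      2 * r * (univ.filter fun B : Finset (Fin n) => B.card ≤ d / 2).card) := by
  classical
  set M := (univ.filter fun B : Finset (Fin n) => B.card ≤ d / 2).card with hM
  set M' := (univ.filter fun B : Finset (Fin n) => d < B.card).card with hM'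
  -- choose `g` with `g * w i` of degree at most `d`
  let L : (V n → K) →ₗ[K] ((Fin S × {B : Finset (Fin n) // d < B.card}) → K) :=
    { toFun := fun g q => cf (fun x => g x * w q.1 x) q.2.1
      map_add' := by
        intro g g'
        ext q
        simp only [cf, Pi.add_apply, add_mul, Finset.sum_add_distrib]
      map_smul' := by
        intro c g
        ext q
        simp only [cf, Pi.smul_apply, smul_eq_mul, RingHom.id_apply, Finset.mul_sum, mul_assoc] }
  obtain ⟨g, hg, hz⟩ := few_zeros L
  have hdeg : ∀ i : Fin S, ∀ B : Finset (Fin n), d < B.card → cf (fun x => g x * w i x) B = 0 := by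
    intro i B hB
    exact congrFun hg (i, ⟨B, hB⟩)
  have hzc : Nat.card {s : V n // g s = 0} ≤ S * M' := by
    refine hz.trans ?_
    rw [Fintype.card_prod, Fintype.card_fin]
    refine Nat.mul_le_mul_left _ ?_
    rw [Fintype.card_subtype]
  -- the splitting
  choose a b hab using fun i : Fin S => split (fun x => g x * w i x) d (hdeg i)
  let J := {B : Finset (Fin n) // B.card ≤ d / 2}
  have hJc : Fintype.card J ≤ M := by
    rw [Fintype.card_subtype, hM]
  -- the matrix `g (x + y) * f x y`
  let a' : (Fin S × Fin r × J) ⊕ (Fin S × Fin r × J) → V n → K := Sum.elim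
    (fun q x => u q.1 q.2.1 x * mon K q.2.2.1 x) (fun q x => u q.1 q.2.1 x * a q.1 q.2.2 x)
  let b' : (Fin S × Fin r × J) ⊕ (Fin S × Fin r × J) → V n → K := Sum.elim
    (fun q y => v q.1 q.2.1 y * b q.1 q.2.2 y) (fun q y => v q.1 q.2.1 y * mon K q.2.2.1 y)
  have hm : ∀ x y, ∑ q, a' q x * b' q y =
      g (x + y) * ∑ i, (∑ j, u i j x * v i j y) * w i (x + y) := by
    intro x y
    rw [Fintype.sum_sum_type]
    simp only [a', b', Sum.elim_inl, Sum.elim_inr]
    rw [Fintype.sum_prod_type, Fintype.sum_prod_type, ← Finset.sum_add_distrib, Finset.mul_sum]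
    refine Finset.sum_congr rfl fun i _ => ?_
    rw [Fintype.sum_prod_type, Fintype.sum_prod_type, ← Finset.sum_add_distrib]
    have := hab i x y
    calc ∑ j, (∑ P : J, u i j x * mon K P.1 x * (v i j y * b i P y) +
          ∑ P : J, u i j x * a i P x * (v i j y * mon K P.1 y))
        = ∑ j, u i j x * v i j y *
            (∑ P : J, mon K P.1 x * b i P y + ∑ P : J, a i P x * mon K P.1 y) := by
          refine Finset.sum_congr rfl fun j _ => ?_
          rw [mul_add, Finset.mul_sum, Finset.mul_sum]
          congr 1
          · refine Finset.sum_congr rfl fun P _ => ?_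
            ring
          · refine Finset.sum_congr rfl fun P _ => ?_
            ring
      _ = ∑ j, u i j x * v i j y * (g (x + y) * w i (x + y)) := by rw [← this]
      _ = _ := by rw [← Finset.sum_mul]; ring
  have hbound := matrix_bound A hA a' b' (by
    intro x y hne
    rw [hm] at hne
    exact (h x y).2 (right_ne_zero_of_mul hne))
  have hcI : Fintype.card ((Fin S × Fin r × J) ⊕ (Fin S × Fin r × J)) ≤ 2 * S * r * M := by
    rw [Fintype.card_sum, Fintype.card_prod, Fintype.card_prod, Fintype.card_fin, Fintype.card_fin]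
    have : S * (r * Fintype.card J) ≤ S * (r * M) :=
      Nat.mul_le_mul_left _ (Nat.mul_le_mul_left _ hJc)
    calc S * (r * Fintype.card J) + S * (r * Fintype.card J) ≤ S * (r * M) + S * (r * M) :=
          Nat.add_le_add this this
      _ = 2 * S * r * M := by ring
  -- cover `A`
  set A1 := univ.filter fun p : V n × V n => ∑ q, a' q p.1 * b' q p.2 ≠ 0 with hA1
  set A2 := univ.filter fun p : V n × V n => g (p.1 + p.2) = 0 with hA2
  have hsub : A ⊆ A1 ∪ A2 := by
    intro p hp
    rw [mem_union, hA1, hA2, mem_filter, mem_filter]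
    by_cases h0 : g (p.1 + p.2) = 0
    · right; exact ⟨mem_univ _, h0⟩
    · left
      refine ⟨mem_univ _, ?_⟩
      rw [hm]
      exact mul_ne_zero h0 ((h p.1 p.2).1 hp)
  have hA1c : A1.card ≤ 2 ^ n * (2 * S * r * M) := by
    have : A1.card = Nat.card {p : V n × V n // ∑ q, a' q p.1 * b' q p.2 ≠ 0} := by
      rw [Nat.card_eq_fintype_card, Fintype.card_subtype]
    rw [this]
    exact hbound.trans (Nat.mul_le_mul_left _ hcI)
  have hA2c : A2.card ≤ 2 ^ n * (S * M') := by
    have e : A2.card = (univ ×ˢ univ.filter fun s : V n => g s = 0 : Finset (V n × V n)).card := by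
      refine Finset.card_bij' (fun p _ => (p.1, p.1 + p.2)) (fun p _ => (p.1, p.1 + p.2)) ?_ ?_ ?_ ?_
      · intro p hp
        rw [hA2, mem_filter] at hp
        simp [hp.2]
      · intro p hp
        simp only [mem_product, mem_univ, true_and, mem_filter] at hp
        rw [hA2, mem_filter]
        refine ⟨mem_univ _, ?_⟩
        simp only
        rw [← add_assoc, add_self, zero_add]; exact hp
      · intro p _
        simp only
        rw [← add_assoc, add_self, zero_add]
      · intro p _
        simp only
        rw [← add_assoc, add_self, zero_add]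
    rw [e, Finset.card_product, Finset.card_univ, Fintype.card_fun, ZMod.card, Fintype.card_fin]
    refine Nat.mul_le_mul_left _ ?_
    rw [← Fintype.card_subtype, ← Nat.card_eq_fintype_card]
    exact hzc
  calc A.card ≤ (A1 ∪ A2).card := Finset.card_le_card hsub
    _ ≤ A1.card + A2.card := Finset.card_union_le _ _
    _ ≤ 2 ^ n * (2 * S * r * M) + 2 ^ n * (S * M') := Nat.add_le_add hA1c hA2c
    _ = S * 2 ^ n * (M' + 2 * r * M) := by ring

/-- the number of small sets as a sum of binomial coefficients -/
lemma card_small (k : ℕ) : (univ.filter fun B : Finset (Fin n) => B.card ≤ k).card =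
    ∑ j ∈ range (k + 1), n.choose j := by
  classical
  rw [Finset.card_eq_sum_card_fiberwise (f := fun B : Finset (Fin n) => B.card) (t := range (k + 1))]
  · refine Finset.sum_congr rfl fun j hj => ?_
    rw [mem_range] at hj
    have : (univ.filter (fun B : Finset (Fin n) => B.card ≤ k)).filter (fun B => B.card = j) =
        (univ : Finset (Fin n)).powersetCard j := by
      ext B
      simp only [mem_filter, mem_univ, true_and, mem_powersetCard, subset_univ]
      constructor
      · rintro ⟨_, h⟩; exact h
      · intro h; exact ⟨by omega, h⟩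
    rw [this, Finset.card_powersetCard, Finset.card_univ, Fintype.card_fin]
  · intro B hB
    rw [Finset.mem_coe, mem_filter] at hB
    show B.card ∈ ((range (k + 1) : Finset ℕ) : Set ℕ)
    rw [Finset.mem_coe, mem_range]; omega

lemma card_large (d : ℕ) : (univ.filter fun B : Finset (Fin n) => d < B.card).card =
    ∑ j ∈ Ico (d + 1) (n + 1), n.choose j := by
  classical
  rw [Finset.card_eq_sum_card_fiberwise (f := fun B : Finset (Fin n) => B.card)
    (t := Ico (d + 1) (n + 1))]
  · refine Finset.sum_congr rfl fun j hj => ?_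
    rw [mem_Ico] at hj
    have : (univ.filter (fun B : Finset (Fin n) => d < B.card)).filter (fun B => B.card = j) =
        (univ : Finset (Fin n)).powersetCard j := by
      ext B
      simp only [mem_filter, mem_univ, true_and, mem_powersetCard, subset_univ]
      constructor
      · rintro ⟨_, h⟩; exact h
      · intro h; exact ⟨by omega, h⟩
    rw [this, Finset.card_powersetCard, Finset.card_univ, Fintype.card_fin]
  · intro B hB
    rw [Finset.mem_coe, mem_filter] at hB
    show B.card ∈ ((Ico (d + 1) (n + 1) : Finset ℕ) : Set ℕ)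
    rw [Finset.mem_coe, mem_Ico]
    have := Finset.card_le_univ B
    rw [Fintype.card_fin] at this
    omega

end Pool.Agent.TH835.Cor
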